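import Mathlib

/-!
# A non-integer base which is not an almost variational frequency base

Let `β = (3 + √21) / 2 = 3.79…`, so `β ^ 2 = 3 β + 3` and the digits are `0, 1, 2, 3`.  For almost
every `x` no `β`-expansion of `x` has all digit frequencies (close to) `1 / 4`.

Proof.  Give the digits the weights `a 0 = y ^ 7`, `a 1 = y ^ (-1)`, `a 2 = y ^ (-9)`, `a 3 = y ^ 3`
with `y = 1.01`; their product is `1`, so a word in which all digits have frequency `1 / 4` has
weight `≈ 1`.  Replacing a factor `d 3 3` by `(d + 1) 0 0` does not change the value of a word and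
does not decrease its weight, so every word (after a `0`) has the same value as a word of at least the
same weight without the factor `3 3`.  The sum of the weights of all words of length `n` without `3 3`
is `O(3.79 ^ n)`, and `3.79 < β`.  So the `x` which have an expansion whose `n`-th prefix has weight
at least `0.9998 ^ n` form a set of measure `O((3.79 / 0.9998 β) ^ n)`.
-/

set_option autoImplicit false

namespace Pool.Agent.Results.MP_842b9f_an.NotEveryBase

open Filter Topology MeasureTheory

/-- `ε 0, ε 1, …` are the digits, in `{0, …, m - 1}`, of a `β`-expansion of `x`. -/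
def IsExpansion (β : ℝ) (m : ℕ) (ε : ℕ → ℕ) (x : ℝ) : Prop :=
  (∀ i, ε i < m) ∧ HasSum (fun i : ℕ => (ε i : ℝ) / β ^ (i + 1)) x

/-- The digit `j` has the frequency `p` in the sequence `ε`. -/
def HasFreq (ε : ℕ → ℕ) (j : ℕ) (p : ℝ) : Prop :=
  Tendsto (fun n : ℕ => (((Finset.range n).filter fun i => ε i = j).card : ℝ) / n) atTop (𝓝 p)

/-- `β` is an almost variational frequency base. -/
def AlmostVariational (β : ℝ) : Prop :=
  ∃ c : ℝ, 0 < c ∧ ∀ p : ℕ → ℝ, (∀ j < ⌈β⌉₊, |p j - 1 / (⌈β⌉₊ : ℝ)| ≤ c) →
    ∑ j ∈ Finset.range ⌈β⌉₊, p j = 1 →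
    ∀ᵐ x : ℝ, x ∈ Set.Icc 0 (((⌈β⌉₊ : ℝ) - 1) / (β - 1)) →
      ∃ ε, IsExpansion β ⌈β⌉₊ ε x ∧ ∀ j < ⌈β⌉₊, HasFreq ε j (p j)

/-- the weights of the digits -/
noncomputable def a : ℕ → ℝ
  | 0 => (101 / 100) ^ 7
  | 1 => 100 / 101
  | 2 => (100 / 101) ^ 9
  | _ => (101 / 100) ^ 3

/-- the weight of a word -/
noncomputable def wt (l : List ℕ) : ℝ := (l.map a).prod

/-- the value of a word -/
noncomputable def val (β : ℝ) : List ℕ → ℝ
  | [] => 0
  | d :: l => (d + val β l) / β

/-- the word read in base four -/
def code : List ℕ → ℕ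
  | [] => 0
  | d :: l => d * 4 ^ l.length + code l

/-- no factor `3 3` -/
def Good : List ℕ → Prop
  | [] => True
  | [_] => True
  | x :: y :: l => ¬ (x = 3 ∧ y = 3) ∧ Good (y :: l)

lemma a_pos (d : ℕ) : 0 < a d := by
  unfold a
  split <;> positivity

lemma wt_pos (l : List ℕ) : 0 < wt l := by
  unfold wt
  apply List.prod_pos
  intro x hx
  obtain ⟨d, _, rfl⟩ := List.mem_map.1 hx
  exact a_pos d

lemma wt_cons (d : ℕ) (l : List ℕ) : wt (d :: l) = a d * wt l := by simp [wt]

lemma wt_append (l m : List ℕ) : wt (l ++ m) = wt l * wt m := by simp [wt]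

lemma val_append (β : ℝ) (l m : List ℕ) : val β (l ++ m) = val β l + val β m / β ^ l.length := by
  induction l with
  | nil => simp [val]
  | cons d l ih =>
    rw [List.cons_append, val, val, ih, List.length_cons, pow_succ, ← div_div]
    ring

lemma code_append (l m : List ℕ) : code (l ++ m) = code l * 4 ^ m.length + code m := by
  induction l with
  | nil => simp [code]
  | cons d l ih =>
    rw [List.cons_append, code, code, ih, List.length_append, pow_add]
    ring

lemma code_lt (l : List ℕ) (h : ∀ d ∈ l, d ≤ 3) : code l < 4 ^ l.length := by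
  induction l with
  | nil => simp [code]
  | cons d l ih =>
    have h1 := ih fun e he => h e (List.mem_cons_of_mem _ he)
    have h2 := h d List.mem_cons_self
    rw [code, List.length_cons, pow_succ]
    have h3 : d * 4 ^ l.length ≤ 3 * 4 ^ l.length := Nat.mul_le_mul_right _ h2
    omega

lemma val_nonneg {β : ℝ} (hβ : 0 < β) (l : List ℕ) : 0 ≤ val β l := by
  induction l with
  | nil => exact le_rfl
  | cons d l ih =>
    rw [val]
    positivity

/-- a word which does not begin with `3` and has a factor `3 3` has a factor `e 3 3`, `e ≤ 2` -/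
lemma exists_factor : ∀ (n : ℕ) (l : List ℕ), l.length ≤ n → ∀ d ≤ 2, (∀ x ∈ l, x ≤ 3) →
    ¬ Good (d :: l) → ∃ (pre : List ℕ) (e : ℕ) (post : List ℕ), e ≤ 2 ∧
      d :: l = pre ++ e :: 3 :: 3 :: post := by
  intro n
  induction n with
  | zero =>
    intro l hl d _ _ h
    have : l = [] := List.length_eq_zero_iff.1 (by omega)
    subst this
    exact absurd trivial h
  | succ n ih =>
    intro l hl d hd hl3 h
    match l, hl, hl3, h with
    | [], _, _, h => exact absurd trivial h
    | x :: l', hl, hl3, h =>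
      have h1 : ¬ Good (x :: l') := fun h2 => h ⟨fun h3 => by omega, h2⟩
      have hx := hl3 x List.mem_cons_self
      rw [List.length_cons] at hl
      rcases Nat.lt_or_ge x 3 with hx3 | hx3
      · obtain ⟨pre, e, post, he, h2⟩ := ih l' (by omega) x (by omega)
          (fun y hy => hl3 y (List.mem_cons_of_mem _ hy)) h1
        exact ⟨d :: pre, e, post, he, by rw [h2, List.cons_append]⟩
      · have hx' : x = 3 := by omega
        subst hx'
        match l', hl, hl3, h1 with
        | [], _, _, h1 => exact absurd trivial h1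
        | y :: l'', hl, hl3, h1 =>
          have hy := hl3 y (List.mem_cons_of_mem _ List.mem_cons_self)
          rw [List.length_cons] at hl
          rcases Nat.lt_or_ge y 3 with hy3 | hy3
          · have h2 : ¬ Good (y :: l'') := fun h3 => h1 ⟨fun h4 => by omega, h3⟩
            obtain ⟨pre, e, post, he, h2⟩ := ih l'' (by omega) y (by omega)
              (fun z hz => hl3 z (List.mem_cons_of_mem _ (List.mem_cons_of_mem _ hz))) h2
            exact ⟨d :: 3 :: pre, e, post, he, by rw [h2, List.cons_append, List.cons_append]⟩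
          · have hy' : y = 3 := by omega
            subst hy'
            exact ⟨[], d, l'', hd, rfl⟩

/-- the weights do not decrease -/
lemma wt_move (d : ℕ) (hd : d ≤ 2) : a d * (a 3 * a 3) ≤ a (d + 1) * (a 0 * a 0) := by
  interval_cases d <;> simp only [a] <;> norm_num

lemma val_move {β : ℝ} (hβ : 0 < β) (hβ2 : β ^ 2 = 3 * β + 3) (d : ℕ) (post : List ℕ) :
    val β (d :: 3 :: 3 :: post) = val β ((d + 1) :: 0 :: 0 :: post) := by
  simp only [val]
  push_cast
  field_simp
  nlinarith

/-- every word whose value is less than `3 / β` has the same value as a word of at least the same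
weight without the factor `3 3` -/
lemma normalize {β : ℝ} (hβ : 0 < β) (hβ2 : β ^ 2 = 3 * β + 3) (w : List ℕ)
    (hw : ∀ d ∈ w, d ≤ 3) (hw3 : val β w < 3 / β) :
    ∃ v : List ℕ, v.length = w.length ∧ (∀ d ∈ v, d ≤ 3) ∧ val β v = val β w ∧ wt w ≤ wt v ∧
      Good v := by
  have key : ∀ (k : ℕ) (v : List ℕ), 4 ^ v.length - code v = k → v.length = w.length →
      (∀ d ∈ v, d ≤ 3) → val β v = val β w → wt w ≤ wt v →
      ∃ v : List ℕ, v.length = w.length ∧ (∀ d ∈ v, d ≤ 3) ∧ val β v = val β w ∧ wt w ≤ wt v ∧
        Good v := by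
    intro k
    induction k using Nat.strong_induction_on with
    | _ k ih =>
      intro v hk hlen hv hval hwt
      by_cases hg : Good v
      · exact ⟨v, hlen, hv, hval, hwt, hg⟩
      match v, hk, hlen, hv, hval, hwt, hg with
      | [], _, _, _, _, _, hg => exact absurd trivial hg
      | d :: l, hk, hlen, hv, hval, hwt, hg =>
        have hd : d ≤ 2 := by
          by_contra hd
          have h1 : d = 3 := by
            have := hv d List.mem_cons_self
            omega
          subst h1
          rw [← hval, val] at hw3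
          have h2 := val_nonneg hβ l
          have h3 : (3 : ℝ) / β ≤ (((3 : ℕ) : ℝ) + val β l) / β := by
            apply div_le_div_of_nonneg_right _ hβ.le
            push_cast
            linarith
          linarith
        obtain ⟨pre, e, post, he, hfac⟩ := exists_factor l.length l le_rfl d hd
          (fun x hx => hv x (List.mem_cons_of_mem _ hx)) hg
        rw [hfac] at hk hlen hv hval hwt
        have hlen2 : (pre ++ (e + 1) :: 0 :: 0 :: post).length =
            (pre ++ e :: 3 :: 3 :: post).length := by simp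
        have hv2 : ∀ x ∈ pre ++ (e + 1) :: 0 :: 0 :: post, x ≤ 3 := by
          intro x hx
          rcases List.mem_append.1 hx with h | h
          · exact hv x (List.mem_append_left _ h)
          · rcases List.mem_cons.1 h with h | h
            · omega
            · rcases List.mem_cons.1 h with h | h
              · omega
              · rcases List.mem_cons.1 h with h | h
                · omega
                · exact hv x (List.mem_append_right _ (List.mem_cons_of_mem _
                    (List.mem_cons_of_mem _ (List.mem_cons_of_mem _ h))))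
        have hcode : code (pre ++ e :: 3 :: 3 :: post) <
            code (pre ++ (e + 1) :: 0 :: 0 :: post) := by
          rw [code_append, code_append]
          have h1 : (e :: 3 :: 3 :: post).length = ((e + 1) :: 0 :: 0 :: post).length := by simp
          rw [h1]
          apply Nat.add_lt_add_left
          simp only [code, List.length_cons, pow_succ]
          have : 0 < 4 ^ post.length := by positivity
          nlinarith
        have hlt := code_lt _ hv2
        rw [hlen2] at hlt
        refine ih _ ?_ (pre ++ (e + 1) :: 0 :: 0 :: post) rfl (hlen2.trans hlen) hv2 ?_ ?_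
        · rw [← hk, hlen2]
          omega
        · rw [← hval, val_append, val_append, val_move hβ hβ2]
        · refine hwt.trans ?_
          rw [wt_append, wt_append, wt_cons, wt_cons, wt_cons, wt_cons, wt_cons, wt_cons]
          apply mul_le_mul_of_nonneg_left _ (wt_pos _).le
          have h1 := wt_move e he
          have h2 := wt_pos post
          calc a e * (a 3 * (a 3 * wt post)) = (a e * (a 3 * a 3)) * wt post := by ring
            _ ≤ (a (e + 1) * (a 0 * a 0)) * wt post := mul_le_mul_of_nonneg_right h1 h2.le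
            _ = _ := by ring
  exact key _ w rfl rfl hw rfl le_rfl

/-- the words of length `n` without the factor `3 3` -/
def words : ℕ → Finset (List ℕ)
  | 0 => {[]}
  | 1 => {[0], [1], [2], [3]}
  | n + 2 => ((Finset.range 3 ×ˢ words (n + 1)).image fun z => z.1 :: z.2) ∪
      ((Finset.range 3 ×ˢ words n).image fun z => 3 :: z.1 :: z.2)

lemma mem_words : ∀ (n : ℕ) (v : List ℕ), v.length = n → (∀ d ∈ v, d ≤ 3) → Good v →
    v ∈ words n := by
  intro n
  induction n using Nat.strong_induction_on with
  | _ n ih =>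
    intro v hn hv hg
    match v, hn, hv, hg with
    | [], hn, _, _ =>
      rw [List.length_nil] at hn
      subst hn
      simp [words]
    | [d], hn, hv, _ =>
      rw [List.length_singleton] at hn
      subst hn
      have := hv d List.mem_cons_self
      simp only [words, Finset.mem_insert, Finset.mem_singleton, List.cons.injEq, and_true]
      omega
    | d :: e :: l, hn, hv, hg =>
      rw [List.length_cons, List.length_cons] at hn
      subst hn
      have hd := hv d List.mem_cons_self
      have he := hv e (List.mem_cons_of_mem _ List.mem_cons_self)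
      have hl : ∀ x ∈ e :: l, x ≤ 3 := fun x hx => hv x (List.mem_cons_of_mem _ hx)
      rw [words, Finset.mem_union, Finset.mem_image, Finset.mem_image]
      rcases Nat.lt_or_ge d 3 with h3 | h3
      · left
        refine ⟨(d, e :: l), ?_, rfl⟩
        rw [Finset.mem_product, Finset.mem_range]
        exact ⟨h3, ih _ (by omega) _ (by simp) hl hg.2⟩
      · right
        have hd3 : d = 3 := by omega
        subst hd3
        have he3 : e < 3 := by
          by_contra h
          exact hg.1 ⟨rfl, by omega⟩
        refine ⟨(e, l), ?_, rfl⟩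
        rw [Finset.mem_product, Finset.mem_range]
        refine ⟨he3, ih _ (by omega) _ rfl (fun x hx => hl x (List.mem_cons_of_mem _ hx)) ?_⟩
        have h1 := hg.2
        match l, h1 with
        | [], _ => trivial
        | y :: l', h1 => exact h1.2

lemma sum_words (n : ℕ) : ∑ v ∈ words n, wt v ≤ 2 * (379 / 100 : ℝ) ^ n := by
  induction n using Nat.strong_induction_on with
  | _ n ih =>
    match n, ih with
    | 0, _ => simp [words, wt]
    | 1, _ =>
      rw [words, Finset.sum_insert (by simp), Finset.sum_insert (by simp),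
        Finset.sum_insert (by simp), Finset.sum_singleton]
      simp only [wt, List.map_cons, List.map_nil, List.prod_cons, List.prod_nil, mul_one, a]
      norm_num
    | n + 2, ih =>
      have h1 := ih (n + 1) (by omega)
      have h2 := ih n (by omega)
      have e1 : ∑ v ∈ (Finset.range 3 ×ˢ words (n + 1)).image (fun z => z.1 :: z.2), wt v =
          (a 0 + a 1 + a 2) * ∑ v ∈ words (n + 1), wt v := by
        rw [Finset.sum_image (fun z _ z' _ h => by
          simp only [List.cons.injEq] at h
          exact Prod.ext h.1 h.2), Finset.sum_product]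
        simp only [wt_cons, ← Finset.mul_sum]
        rw [Finset.sum_range_succ, Finset.sum_range_succ, Finset.sum_range_one]
        ring
      have e2 : ∑ v ∈ (Finset.range 3 ×ˢ words n).image (fun z => 3 :: z.1 :: z.2), wt v =
          a 3 * (a 0 + a 1 + a 2) * ∑ v ∈ words n, wt v := by
        rw [Finset.sum_image (fun z _ z' _ h => by
          simp only [List.cons.injEq, true_and] at h
          exact Prod.ext h.1 h.2), Finset.sum_product]
        simp only [wt_cons, ← Finset.mul_sum]
        rw [Finset.sum_range_succ, Finset.sum_range_succ, Finset.sum_range_one]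
        ring
      have h3 : (a 0 + a 1 + a 2) * ((379 / 100 : ℝ) + a 3) ≤ (379 / 100) ^ 2 := by
        simp only [a]
        norm_num
      have hA : 0 < a 0 + a 1 + a 2 := by
        have := a_pos 0
        have := a_pos 1
        have := a_pos 2
        linarith
      calc ∑ v ∈ words (n + 2), wt v ≤
          (∑ v ∈ (Finset.range 3 ×ˢ words (n + 1)).image (fun z => z.1 :: z.2), wt v) +
          ∑ v ∈ (Finset.range 3 ×ˢ words n).image (fun z => 3 :: z.1 :: z.2), wt v := by
            rw [words]
            rw [← Finset.sum_union_inter]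
            exact le_add_of_nonneg_right (Finset.sum_nonneg fun v _ => (wt_pos v).le)
        _ = (a 0 + a 1 + a 2) * ∑ v ∈ words (n + 1), wt v +
            a 3 * (a 0 + a 1 + a 2) * ∑ v ∈ words n, wt v := by rw [e1, e2]
        _ ≤ (a 0 + a 1 + a 2) * (2 * (379 / 100 : ℝ) ^ (n + 1)) +
            a 3 * (a 0 + a 1 + a 2) * (2 * (379 / 100 : ℝ) ^ n) := by
            have := a_pos 3
            exact add_le_add (mul_le_mul_of_nonneg_left h1 hA.le)
              (mul_le_mul_of_nonneg_left h2 (by positivity))
        _ = 2 * (379 / 100 : ℝ) ^ n * ((a 0 + a 1 + a 2) * ((379 / 100 : ℝ) + a 3)) := by ring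
        _ ≤ 2 * (379 / 100 : ℝ) ^ n * (379 / 100) ^ 2 :=
            mul_le_mul_of_nonneg_left h3 (by positivity)
        _ = _ := by ring

/-- the prefix of length `n` -/
def pre (ε : ℕ → ℕ) (n : ℕ) : List ℕ := (List.range n).map ε

lemma pre_succ (ε : ℕ → ℕ) (n : ℕ) : pre ε (n + 1) = pre ε n ++ [ε n] := by
  simp [pre, List.range_succ]

lemma pre_length (ε : ℕ → ℕ) (n : ℕ) : (pre ε n).length = n := by simp [pre]

lemma val_pre (β : ℝ) (ε : ℕ → ℕ) (n : ℕ) :
    val β (pre ε n) = ∑ i ∈ Finset.range n, (ε i : ℝ) / β ^ (i + 1) := by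
  induction n with
  | zero => simp [pre, val]
  | succ n ih =>
    rw [pre_succ, val_append, ih, Finset.sum_range_succ, pre_length, val, val, add_zero, div_div,
      pow_succ']

lemma wt_pre (ε : ℕ → ℕ) (n : ℕ) : wt (pre ε n) = ∏ i ∈ Finset.range n, a (ε i) := by
  induction n with
  | zero => simp [pre, wt]
  | succ n ih =>
    rw [pre_succ, wt_append, ih, Finset.prod_range_succ]
    simp [wt]

/-- the exceptional sets -/
def E (β : ℝ) (n : ℕ) : Set ℝ :=
  ⋃ v ∈ (words (n + 1)).filter (fun v => (9998 / 10000 : ℝ) ^ n ≤ wt v),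
    Set.Icc (β * val β v) (β * val β v + 3 / (β - 1) / β ^ n)

lemma meas_E {β : ℝ} (hβ : 1 < β) (n : ℕ) :
    volume (E β n) ≤ ENNReal.ofReal (3 / (β - 1) * (2 * (379 / 100)) *
      ((379 / 100) / (9998 / 10000 * β)) ^ n) := by
  have hβ0 : 0 < β := by linarith
  have hκ : 0 < 3 / (β - 1) := by
    apply div_pos (by norm_num)
    linarith
  unfold E
  refine (measure_biUnion_finset_le _ _).trans ?_
  have h1 : ∀ v : List ℕ, volume (Set.Icc (β * val β v) (β * val β v + 3 / (β - 1) / β ^ n)) =
      ENNReal.ofReal (3 / (β - 1) / β ^ n) := by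
    intro v
    rw [Real.volume_Icc]
    congr 1
    ring
  rw [Finset.sum_congr rfl fun v _ => h1 v]
  rw [← ENNReal.ofReal_sum_of_nonneg (fun v _ => by positivity)]
  apply ENNReal.ofReal_le_ofReal
  calc ∑ v ∈ (words (n + 1)).filter (fun v => (9998 / 10000 : ℝ) ^ n ≤ wt v),
      3 / (β - 1) / β ^ n ≤ ∑ v ∈ (words (n + 1)).filter (fun v => (9998 / 10000 : ℝ) ^ n ≤ wt v),
      wt v * (3 / (β - 1) / β ^ n / (9998 / 10000) ^ n) := by
        refine Finset.sum_le_sum fun v hv => ?_
        have h2 := (Finset.mem_filter.1 hv).2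
        rw [mul_div_assoc', le_div_iff₀ (by positivity), mul_comm]
        exact mul_le_mul_of_nonneg_right h2 (by positivity)
    _ ≤ ∑ v ∈ words (n + 1), wt v * (3 / (β - 1) / β ^ n / (9998 / 10000) ^ n) := by
        refine Finset.sum_le_sum_of_subset_of_nonneg (Finset.filter_subset _ _) fun v _ _ => ?_
        have := wt_pos v
        positivity
    _ = (∑ v ∈ words (n + 1), wt v) * (3 / (β - 1) / β ^ n / (9998 / 10000) ^ n) := by
        rw [Finset.sum_mul]
    _ ≤ (2 * (379 / 100 : ℝ) ^ (n + 1)) * (3 / (β - 1) / β ^ n / (9998 / 10000) ^ n) :=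
        mul_le_mul_of_nonneg_right (sum_words _) (by positivity)
    _ = _ := by
        rw [div_pow (379 / 100 : ℝ), mul_pow]
        field_simp
        ring

/-- a sum over the digits -/
lemma sum_digits (ε : ℕ → ℕ) (hε : ∀ i, ε i < 4) (g : ℕ → ℝ) (n : ℕ) :
    ∑ i ∈ Finset.range n, g (ε i) =
      ∑ j ∈ Finset.range 4, (((Finset.range n).filter fun i => ε i = j).card : ℝ) * g j := by
  rw [← Finset.sum_fiberwise_of_maps_to (s := Finset.range n) (t := Finset.range 4) (g := ε)
    (fun i _ => Finset.mem_range.2 (hε i))]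
  refine Finset.sum_congr rfl fun j _ => ?_
  rw [Finset.sum_congr rfl (g := fun _ => g j) (fun i hi => by
    rw [(Finset.mem_filter.1 hi).2]), Finset.sum_const, nsmul_eq_mul]

/-- the prefixes of an expansion with given frequencies are heavy -/
lemma heavy (ε : ℕ → ℕ) (hε : ∀ i, ε i < 4) (p : ℕ → ℝ)
    (hp : Real.log (9998 / 10000) < ∑ j ∈ Finset.range 4, p j * Real.log (a j))
    (hf : ∀ j < 4, HasFreq ε j (p j)) :
    ∀ᶠ n : ℕ in atTop, (9998 / 10000 : ℝ) ^ n ≤ wt (pre ε n) := by
  have h1 : Tendsto (fun n : ℕ => ∑ j ∈ Finset.range 4,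
      (((Finset.range n).filter fun i => ε i = j).card : ℝ) / n * Real.log (a j)) atTop
      (𝓝 (∑ j ∈ Finset.range 4, p j * Real.log (a j))) := by
    refine tendsto_finsetSum _ fun j hj => ?_
    exact (hf j (Finset.mem_range.1 hj)).mul_const _
  filter_upwards [h1.eventually (lt_mem_nhds hp), eventually_gt_atTop 0] with n h2 hn
  have hn0 : (0 : ℝ) < n := by exact_mod_cast hn
  have h3 : Real.log (wt (pre ε n)) = ∑ j ∈ Finset.range 4,
      (((Finset.range n).filter fun i => ε i = j).card : ℝ) * Real.log (a j) := by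
    rw [wt_pre, Real.log_prod (fun i _ => (a_pos _).ne')]
    exact sum_digits ε hε (fun j => Real.log (a j)) n
  have h4 : (n : ℝ) * Real.log (9998 / 10000) ≤ Real.log (wt (pre ε n)) := by
    rw [h3]
    have h5 : ∑ j ∈ Finset.range 4,
        (((Finset.range n).filter fun i => ε i = j).card : ℝ) * Real.log (a j) =
        n * ∑ j ∈ Finset.range 4,
        (((Finset.range n).filter fun i => ε i = j).card : ℝ) / n * Real.log (a j) := by
      rw [Finset.mul_sum]
      refine Finset.sum_congr rfl fun j _ => ?_
      field_simp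
    rw [h5]
    exact mul_le_mul_of_nonneg_left h2.le hn0.le
  rw [← Real.log_le_log_iff (by positivity) (wt_pos _), Real.log_pow]
  exact h4

/-- the tail of an expansion -/
lemma tail_bound {β : ℝ} (hβ : 1 < β) {ε : ℕ → ℕ} {x : ℝ} (h : IsExpansion β 4 ε x) (n : ℕ) :
    val β (pre ε n) ≤ x ∧ x ≤ val β (pre ε n) + 3 / (β - 1) / β ^ n := by
  have hβ0 : 0 < β := by linarith
  obtain ⟨hε, hs⟩ := h
  have h1 : HasSum (fun i : ℕ => (ε (i + n) : ℝ) / β ^ (i + n + 1))
      (x - ∑ i ∈ Finset.range n, (ε i : ℝ) / β ^ (i + 1)) :=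
    (hasSum_nat_add_iff' (f := fun i : ℕ => (ε i : ℝ) / β ^ (i + 1)) n).2 hs
  have h2 : HasSum (fun i : ℕ => (3 : ℝ) / β ^ (i + n + 1)) (3 / (β - 1) / β ^ n) := by
    have h3 := (hasSum_geometric_of_lt_one (r := 1 / β) (by positivity) (by
      rw [div_lt_one hβ0]
      exact hβ)).mul_left (3 / β ^ (n + 1))
    have e1 : 3 / β ^ (n + 1) * (1 - 1 / β)⁻¹ = 3 / (β - 1) / β ^ n := by
      have : β - 1 ≠ 0 := by linarith
      field_simp
      ring
    rw [e1] at h3
    refine h3.congr_fun fun i => ?_
    rw [div_pow, one_pow, pow_add, pow_add, pow_add]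
    field_simp
  rw [val_pre]
  constructor
  · have h3 := hasSum_le (fun i => by positivity) (hasSum_zero (α := ℝ) (β := ℕ)) h1
    linarith
  · have h3 := hasSum_le (fun i => by
      apply div_le_div_of_nonneg_right _ (by positivity)
      have := hε (i + n)
      have h4 : ε (i + n) ≤ 3 := by omega
      exact_mod_cast h4) h1 h2
    linarith

/-- the main theorem -/
lemma main {β : ℝ} (hβ : 37908 / 10000 < β) (hβ2 : β ^ 2 = 3 * β + 3) (p : ℕ → ℝ)
    (hp : Real.log (9998 / 10000) < ∑ j ∈ Finset.range 4, p j * Real.log (a j)) :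
    ∀ᵐ x : ℝ, ¬ ∃ ε, IsExpansion β 4 ε x ∧ ∀ j < 4, HasFreq ε j (p j) := by
  have hβ1 : 1 < β := by linarith
  have hβ0 : 0 < β := by linarith
  have hfin : ∑' n, volume (E β n) ≠ ⊤ := by
    have hr : (379 / 100) / (9998 / 10000 * β) < 1 := by
      rw [div_lt_one (by positivity)]
      linarith
    have hr0 : 0 ≤ (379 / 100) / (9998 / 10000 * β) := by positivity
    have hκ : 0 ≤ 3 / (β - 1) * (2 * (379 / 100)) := by
      have : 0 < β - 1 := by linarith
      positivity
    have hsum : Summable fun n : ℕ => 3 / (β - 1) * (2 * (379 / 100)) *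
        ((379 / 100) / (9998 / 10000 * β)) ^ n :=
      (summable_geometric_of_lt_one hr0 hr).mul_left _
    refine ne_top_of_le_ne_top ?_ (ENNReal.tsum_le_tsum fun n => meas_E hβ1 n)
    exact hsum.tsum_ofReal_ne_top
  filter_upwards [ae_eventually_notMem hfin] with x hx
  rintro ⟨ε, hexp, hf⟩
  obtain ⟨n, h1, h2⟩ := (hx.and (heavy ε hexp.1 p hp hf)).exists
  apply h1
  obtain ⟨h3, h4⟩ := tail_bound hβ1 hexp n
  obtain ⟨_, h5⟩ := tail_bound hβ1 hexp 0
  have hval0 : val β (pre ε 0) = 0 := rfl
  rw [hval0, pow_zero, div_one, zero_add] at h5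
  have hd : ∀ d ∈ (0 :: pre ε n), d ≤ 3 := by
    intro d hd
    rcases List.mem_cons.1 hd with h | h
    · omega
    · obtain ⟨i, _, rfl⟩ := List.mem_map.1 h
      have := hexp.1 i
      omega
  have hlt : val β (0 :: pre ε n) < 3 / β := by
    rw [val]
    apply div_lt_div_of_pos_right _ hβ0
    have h6 : 3 / (β - 1) < 3 := by
      rw [div_lt_iff₀ (by linarith)]
      linarith
    push_cast
    linarith
  obtain ⟨v, hv1, hv2, hv3, hv4, hv5⟩ := normalize hβ0 hβ2 _ hd hlt
  have hmem := mem_words (n + 1) v (by rw [hv1, List.length_cons, pre_length]) hv2 hv5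
  have hbv : β * val β v = val β (pre ε n) := by
    rw [hv3, val]
    push_cast
    field_simp
    ring
  unfold E
  rw [Set.mem_iUnion₂]
  refine ⟨v, Finset.mem_filter.2 ⟨hmem, ?_⟩, ?_⟩
  · refine h2.trans (le_trans ?_ hv4)
    rw [wt_cons]
    have h6 : (1 : ℝ) ≤ a 0 := by
      simp only [a]
      norm_num
    have := wt_pos (pre ε n)
    nlinarith
  · rw [hbv]
    exact ⟨h3, h4⟩

lemma sum_log : ∑ j ∈ Finset.range 4, Real.log (a j) = 0 := by
  rw [← Real.log_prod (fun i _ => (a_pos _).ne')]
  have : ∏ i ∈ Finset.range 4, a i = 1 := by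
    rw [Finset.prod_range_succ, Finset.prod_range_succ, Finset.prod_range_succ,
      Finset.prod_range_one]
    simp only [a]
    norm_num
  rw [this, Real.log_one]

/-- **Not every non-integer base is an almost variational frequency base.** -/
theorem result :
    -- the base `β = (3 + √21) / 2 = 3.79…`, digits `0, 1, 2, 3`: no frequency vector close to the
    -- uniform one is realised, for almost every `x`
    (∃ c : ℝ, 0 < c ∧ ∀ p : ℕ → ℝ, (∀ j < 4, |p j - 1 / 4| ≤ c) →
      ∀ᵐ x : ℝ, ¬ ∃ ε, IsExpansion ((3 + √21) / 2) 4 ε x ∧ ∀ j < 4, HasFreq ε j (p j)) ∧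
    -- so the answer to the question is negative
    ¬ ∀ β : ℝ, 1 < β → (∀ n : ℕ, β ≠ n) → AlmostVariational β := by
  obtain ⟨β, hβ⟩ : ∃ β : ℝ, β = (3 + √21) / 2 := ⟨_, rfl⟩
  have hs : √21 ^ 2 = (21 : ℝ) := Real.sq_sqrt (by norm_num)
  have hs1 : 45816 / 10000 < √21 := by
    rw [Real.lt_sqrt (by norm_num)]
    norm_num
  have hs2 : √21 < 5 := by
    rw [Real.sqrt_lt' (by norm_num)]
    norm_num
  have hβ1 : 37908 / 10000 < β := by rw [hβ]; linarith
  have hβ4 : β < 4 := by rw [hβ]; linarith
  have hβ2 : β ^ 2 = 3 * β + 3 := by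
    rw [hβ]
    nlinarith
  have hpart1 : ∃ c : ℝ, 0 < c ∧ ∀ p : ℕ → ℝ, (∀ j < 4, |p j - 1 / 4| ≤ c) →
      ∀ᵐ x : ℝ, ¬ ∃ ε, IsExpansion β 4 ε x ∧ ∀ j < 4, HasFreq ε j (p j) := by
    obtain ⟨L, hL⟩ : ∃ L : ℝ, L = ∑ j ∈ Finset.range 4, |Real.log (a j)| := ⟨_, rfl⟩
    have hL0 : 0 ≤ L := by
      rw [hL]
      exact Finset.sum_nonneg fun _ _ => abs_nonneg _
    have hr : Real.log (9998 / 10000) < 0 := Real.log_neg (by norm_num) (by norm_num)
    refine ⟨-Real.log (9998 / 10000) / (2 * (L + 1)), ?_, fun p hp => ?_⟩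
    · apply div_pos <;> linarith
    · apply main hβ1 hβ2
      have h1 : ∑ j ∈ Finset.range 4, p j * Real.log (a j) =
          ∑ j ∈ Finset.range 4, (p j - 1 / 4) * Real.log (a j) := by
        have := sum_log
        simp only [sub_mul, Finset.sum_sub_distrib, ← Finset.mul_sum]
        rw [this]
        ring
      rw [h1]
      have h2 : |∑ j ∈ Finset.range 4, (p j - 1 / 4) * Real.log (a j)| ≤
          -Real.log (9998 / 10000) / (2 * (L + 1)) * L := by
        refine (Finset.abs_sum_le_sum_abs _ _).trans ?_
        rw [hL, Finset.mul_sum]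
        refine Finset.sum_le_sum fun j hj => ?_
        rw [abs_mul]
        exact mul_le_mul_of_nonneg_right (by
          rw [← hL]
          exact hp j (Finset.mem_range.1 hj)) (abs_nonneg _)
      have h3 : -Real.log (9998 / 10000) / (2 * (L + 1)) * L < -Real.log (9998 / 10000) := by
        rw [div_mul_eq_mul_div, div_lt_iff₀ (by linarith)]
        nlinarith
      have h4 := neg_abs_le (∑ j ∈ Finset.range 4, (p j - 1 / 4) * Real.log (a j))
      linarith
  refine ⟨by rw [← hβ]; exact hpart1, fun hall => ?_⟩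
  have hceil : ⌈β⌉₊ = 4 := by
    rw [Nat.ceil_eq_iff (by norm_num)]
    constructor
    · push_cast
      linarith
    · push_cast
      linarith
  obtain ⟨c, hc, h⟩ := hall β (by linarith) (fun n hn => by
    rw [hn] at hβ1 hβ4
    have h1 : n < 4 := by exact_mod_cast hβ4
    have h2 : (3 : ℝ) < n := by linarith
    have h3 : 3 < n := by exact_mod_cast h2
    omega)
  obtain ⟨c', hc', h'⟩ := hpart1
  have h1 := h (fun _ => 1 / 4) (fun j _ => by
    rw [hceil]
    norm_num
    exact hc.le) (by
    rw [hceil]
    norm_num)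
  have h2 := h' (fun _ => 1 / 4) (fun j _ => by
    rw [sub_self, abs_zero]
    exact hc'.le)
  rw [hceil] at h1
  have h3 : ∀ᵐ x : ℝ, x ∉ Set.Icc (0 : ℝ) ((((4 : ℕ) : ℝ) - 1) / (β - 1)) := by
    filter_upwards [h1, h2] with x hx1 hx2 hx
    exact hx2 (hx1 hx)
  have h4 : volume (Set.Icc (0 : ℝ) ((((4 : ℕ) : ℝ) - 1) / (β - 1))) = 0 := by
    have := measure_eq_zero_iff_ae_notMem.2 h3
    exact this
  rw [Real.volume_Icc, ENNReal.ofReal_eq_zero] at h4
  have h5 : 0 < (((4 : ℕ) : ℝ) - 1) / (β - 1) := by
    apply div_pos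
    · norm_num
    · linarith
  linarith

end Pool.Agent.Results.MP_842b9f_an.NotEveryBase
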